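import Pool.Agent.X235.Cup.Neg

/-!
MP_28cddd_co, Q1: for every `r` there are connected graphs `G 1 ≤ G 2 ≤ ... ≤ G r` on one common
vertex set such that `G i` is stackable for every odd `i` and non-stackable for every even `i`.
-/

namespace Pool.Agent.Results.MP_28cddd_co.AlternatingChains

open Pool.Agent.X235.Cup

/-- a rapidly increasing sequence of even numbers -/
def a : ℕ → ℕ
  | 0 => 4
  | k + 1 => (a k + 10) ^ 2

theorem a_succ (k : ℕ) : a (k + 1) = (a k + 10) ^ 2 := rfl

theorem a_mono : Monotone a := monotone_nat_of_le_succ fun k => by rw [a_succ]; nlinarith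

theorem a_ge (k : ℕ) : 4 ≤ a k := a_mono (Nat.zero_le k)

theorem a_even (k : ℕ) : a k % 2 = 0 := by
  induction k with
  | zero => rfl
  | succ k ih =>
    rw [a_succ, pow_two, Nat.mul_mod, Nat.add_mod, ih]

/-- number of pendant leaves at stage `i` -/
def Ls (r i : ℕ) : ℕ := if i % 2 = 1 then a (r - i) else a (r - i + 1)

/-- length of the tail at stage `i` -/
def Ms (r i : ℕ) : ℕ := if i % 2 = 1 then a (r - i + 1) else a (r - i)

theorem result : ∀ r : ℕ, ∃ (n : ℕ) (G : ℕ → SimpleGraph (Fin n)),
    (∀ i, 1 ≤ i → i < r → G i ≤ G (i + 1)) ∧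
    ∀ i, 1 ≤ i → i ≤ r → (G i).Connected ∧ (Odd i → Stackable (G i)) ∧
      (Even i → ¬ Stackable (G i)) := by
  intro r
  refine ⟨4 * a (r + 1) + 1,
    fun i => graph (4 * a (r + 1) + 1) (Ls r i) (4 * a (r + 1) - Ms r i), ?_, ?_⟩
  · intro i hi hir
    obtain ⟨k, hk⟩ : ∃ k, r - i = k + 1 := ⟨r - i - 1, by omega⟩
    have hk' : r - (i + 1) = k := by omega
    have h1 : a (k + 2) ≤ a (r + 1) := a_mono (by omega)
    have h2 : a k ≤ a (k + 1) := a_mono (by omega)
    have h3 : a (k + 1) ≤ a (k + 2) := a_mono (by omega)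
    have h4 := a_ge k
    rcases Nat.mod_two_eq_zero_or_one i with h | h
    · have h' : (i + 1) % 2 = 1 := by omega
      have hL : Ls r i = a (k + 2) := by simp [Ls, h, hk]
      have hM : Ms r i = a (k + 1) := by simp [Ms, h, hk]
      have hL' : Ls r (i + 1) = a k := by simp [Ls, h', hk']
      have hM' : Ms r (i + 1) = a (k + 1) := by simp [Ms, h', hk']
      beta_reduce
      rw [hL, hM, hL', hM']
      exact graph_mono (by omega) (by omega) (by omega)
    · have h' : (i + 1) % 2 = 0 := by omega
      have hL : Ls r i = a (k + 1) := by simp [Ls, h, hk]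
      have hM : Ms r i = a (k + 2) := by simp [Ms, h, hk]
      have hL' : Ls r (i + 1) = a (k + 1) := by simp [Ls, h', hk']
      have hM' : Ms r (i + 1) = a k := by simp [Ms, h', hk']
      beta_reduce
      rw [hL, hM, hL', hM']
      exact graph_mono (by omega) (by omega) (by omega)
  · intro i hi hir
    obtain ⟨k, hk⟩ : ∃ k, r - i = k := ⟨r - i, rfl⟩
    have h1 : a (k + 1) ≤ a (r + 1) := a_mono (by omega)
    have h2 : a k ≤ a (k + 1) := a_mono (by omega)
    have h4 := a_ge k
    have h5 := a_succ k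
    have h6 := a_even k
    have h7 := a_even (k + 1)
    have h8 : 6 * a k + 10 ≤ a (k + 1) := by rw [h5]; nlinarith
    have h9 := a_ge (r + 1)
    refine ⟨?_, ?_, ?_⟩
    · refine connected ?_ ?_
      · unfold Ms; split_ifs <;> rw [hk] <;> omega
      · omega
    · intro ho
      have h : i % 2 = 1 := Nat.odd_iff.1 ho
      have hL : Ls r i = a k := by simp [Ls, h, hk]
      have hM : Ms r i = a (k + 1) := by simp [Ms, h, hk]
      beta_reduce
      rw [hL, hM]
      exact stackable h4 (by omega) (by omega) (by omega) (by omega)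
    · intro he
      have h : i % 2 = 0 := Nat.even_iff.1 he
      have hL : Ls r i = a (k + 1) := by simp [Ls, h, hk]
      have hM : Ms r i = a k := by simp [Ms, h, hk]
      beta_reduce
      rw [hL, hM]
      intro hs
      refine not_stackableTo (N := 4 * a (r + 1) + 1) (L := a (k + 1)) (g := 4 * a (r + 1) - a k)
        (by omega) (by omega) ⟨4 * a (r + 1) - a k, by omega⟩ ?_ le_rfl ?_ (hs _)
      · show a (k + 1) < 4 * a (r + 1) - a k
        omega
      · rw [show 4 * a (r + 1) + 1 - (4 * a (r + 1) - a k) = a k + 1 by omega, h5]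
        nlinarith

end Pool.Agent.Results.MP_28cddd_co.AlternatingChains
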